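import Pool.Agent.Y120.A.All

/-!
# The modular Schanuel conjecture with derivatives and special points: almost all tuples of algebraic integral invariants

Let `j` be the modular invariant and let `z_1, …, z_k` be points of the upper half-plane for which the numbers
`α_i = j(z_i)` are algebraic. If the `z_i` are not special and pairwise not equivalent under `GL_2(ℚ)`, the conjecture
predicts that the `3 k` numbers `z_i`, `j'(z_i)`, `j''(z_i)` are algebraically independent, and that they stay independent
if one adds the values `j'(τ_1), …, j'(τ_q)` at inequivalent special points `τ_l` with `j'(τ_l) ≠ 0`: this is the bound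
`3 m_1 + m_2` with `m_1 = k`, `m_2 = q`.

Let `Z_m(T)` be the set of all algebraic integers of degree at most `m` whose conjugates have absolute value at
most `T`. We prove that for all `q`, `k`, `m`, `d`, `δ` there are `c > 0` and `C` such that for all complex numbers
`w_1, …, w_q` and all `T ≥ 1`, outside at most `C T^(-c) |Z_m(T)|^k` of the `k`-tuples `(α_1, …, α_k)` of elements of `Z_m(T)`,
for **all** points `z_i` with `j(z_i) = α_i` every relation of degree at most `δ` between the numbers `z_i`, `j'(z_i)`,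
`j''(z_i)`, with coefficients which are polynomials in `2 π i, w_1, …, w_q` over a number field of degree at most `d` (any
number field, it may contain the `α_i`), is trivial: the polynomial is zero after the substitution of the numbers
`2 π i, w_1, …, w_q`. There is no bound for the heights of the coefficients. If `2 π i, w_1, …, w_q` are algebraically
independent, there is no relation of degree `≤ δ` between these numbers and the `3 k` numbers. With `w_l = j'(τ_l)` this is the bound of the conjecture for relations of degree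
`≤ δ`.

`MP_ede373_nt.IntegralInvariants` is a similar theorem for rational integers `α_i` in boxes; in `DistinctWindows` the `α_i`
are rational integers of a short interval.

Proof. At `X = 1/j(z)`, `Im z` large, `2 π i z = log X + G(X)/F(X)` with the G-functions `F`, `G` of the hypergeometric
equation of `j`, and `j'`, `j''` are polynomials in `2 π i`, `j`, `F`, `X F'`. The theorem of `Pool.Agent.Y916.Af` (Siegel's
method for shifted G-functions at algebraic points of bounded degree) says that for almost all tuples all relations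
between the values and the logarithms come from the functional relations; the functional relations between `F`, `G` and
their derivatives are generated by the Wronskian, by analytic continuation around the elliptic points. The points
with `|j(z)|` large are equivalent under `SL_2(ℤ)` to points with large imaginary part.
-/

set_option autoImplicit false

namespace Pool.Agent.Results.MP_f58a57_nt.AlgebraicInvariants

/-- the normalised Eisenstein series of weight `4` -/
noncomputable def E4 (τ : ℂ) : ℂ :=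
  1 + 240 * ∑' m : ℕ, ((ArithmeticFunction.sigma 3 (m + 1) : ℕ) : ℂ) *
    Complex.exp (2 * (Real.pi : ℂ) * Complex.I * ((m : ℂ) + 1) * τ)

/-- the normalised Eisenstein series of weight `6` -/
noncomputable def E6 (τ : ℂ) : ℂ :=
  1 - 504 * ∑' m : ℕ, ((ArithmeticFunction.sigma 5 (m + 1) : ℕ) : ℂ) *
    Complex.exp (2 * (Real.pi : ℂ) * Complex.I * ((m : ℂ) + 1) * τ)

/-- the modular invariant `j = q⁻¹ + 744 + 196884 q + ⋯` -/
noncomputable def J (τ : ℂ) : ℂ := 1728 * E4 τ ^ 3 / (E4 τ ^ 3 - E6 τ ^ 2)

/-- the numbers `z`, `j'(z)`, `j''(z)` -/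
noncomputable def numbers (z : ℂ) : Fin 3 → ℂ := ![z, deriv J z, deriv (deriv J) z]

/-- The algebraic integers of degree at most `m` all of whose conjugates have absolute value at most `T`. -/
def Z (m T : ℕ) : Set ℂ :=
  {ξ | IsIntegral ℤ ξ ∧ (minpoly ℚ ξ).natDegree ≤ m ∧ ∀ z : ℂ, Polynomial.aeval z (minpoly ℚ ξ) = 0 → ‖z‖ ≤ T}

/-- The numbers `2 π i, w_1, …, w_q` and `numbers (z_1), …, numbers (z_k)`. -/
noncomputable def values {q k : ℕ} (w : Fin q → ℂ) (z : Fin k → ℂ) : Option (Fin q) ⊕ Fin k × Fin 3 → ℂ :=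
  Sum.elim (fun o => o.elim (2 * Real.pi * Complex.I) w) fun v => numbers (z v.1) v.2

/-- The numbers `2 π i, w_1, …, w_q` and `3 k` variables. -/
noncomputable def generic {q k : ℕ} (w : Fin q → ℂ) :
    Option (Fin q) ⊕ Fin k × Fin 3 → MvPolynomial (Fin k × Fin 3) ℂ :=
  Sum.elim (fun o => MvPolynomial.C (o.elim (2 * Real.pi * Complex.I) w)) MvPolynomial.X

/-- For some points `z_i` with `j(z_i) = α_i` some polynomial of degree at most `δ` over a number field of degree at most
`d` vanishes at `2 π i, w_1, …, w_q` and the `3 k` numbers, but not after the substitution of `2 π i, w_1, …, w_q` only. -/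
def Exceptional (δ d : ℕ) {q k : ℕ} (w : Fin q → ℂ) (α : Fin k → ℂ) : Prop :=
  ∃ z : Fin k → ℂ, (∀ i, 0 < (z i).im ∧ J (z i) = α i) ∧
    ∃ K : IntermediateField ℚ ℂ, FiniteDimensional ℚ K ∧ Module.finrank ℚ K ≤ d ∧
    ∃ P : MvPolynomial (Option (Fin q) ⊕ Fin k × Fin 3) K, P.totalDegree ≤ δ ∧
      MvPolynomial.aeval (values w z) P = 0 ∧ MvPolynomial.aeval (generic (k := k) w) P ≠ 0

lemma gen_eval {q k : ℕ} (K : IntermediateField ℚ ℂ) (w : Fin q → ℂ) (u : Fin k × Fin 3 → ℂ)
    (P : MvPolynomial (Option (Fin q) ⊕ Fin k × Fin 3) K) :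
    MvPolynomial.eval u (MvPolynomial.aeval (generic (k := k) w) P) =
      MvPolynomial.aeval (Sum.elim (Pool.Agent.Y120.K.wo w) u) P := by
  have h2 : ((MvPolynomial.aeval u : MvPolynomial (Fin k × Fin 3) ℂ →ₐ[ℂ] ℂ).restrictScalars K).comp
      (MvPolynomial.aeval (generic (k := k) w) : MvPolynomial (Option (Fin q) ⊕ Fin k × Fin 3) K →ₐ[K] MvPolynomial (Fin k × Fin 3) ℂ)
      = MvPolynomial.aeval (Sum.elim (Pool.Agent.Y120.K.wo w) u) := by
    apply MvPolynomial.algHom_ext
    intro v
    rw [AlgHom.comp_apply, MvPolynomial.aeval_X, MvPolynomial.aeval_X, AlgHom.restrictScalars_apply]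
    rcases v with o | v
    · rw [generic, Sum.elim_inl, Sum.elim_inl, MvPolynomial.aeval_C]
      rcases o with _ | o <;> rfl
    · rw [generic, Sum.elim_inr, Sum.elim_inr, MvPolynomial.aeval_X]
  rw [← h2, AlgHom.comp_apply, AlgHom.restrictScalars_apply]
  rfl

lemma J_eq : J = Pool.Agent.TH21.MS.jj := by
  have h4 : E4 = Pool.Agent.TH21.MS.E4 := funext Pool.Agent.Y120.J.E4_same
  have h6 : E6 = Pool.Agent.TH21.MS.E6 := funext Pool.Agent.Y120.J.E6_same
  funext τ
  unfold J Pool.Agent.TH21.MS.jj
  rw [h4, h6]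

lemma values_eq {q k : ℕ} (w : Fin q → ℂ) (z : Fin k → ℂ) :
    (Sum.elim (Pool.Agent.Y120.K.wo w) fun v : Fin k × Fin 3 => Pool.Agent.Y120.J.jt (z v.1) v.2) = values w z := by
  unfold values
  funext v
  rcases v with o | v
  · rw [Sum.elim_inl, Sum.elim_inl]
    rcases o with _ | o <;> rfl
  · rw [Sum.elim_inr, Sum.elim_inr]
    unfold numbers Pool.Agent.Y120.J.jt
    rw [J_eq]

lemma exc {δ d q k : ℕ} {w : Fin q → ℂ} {α : Fin k → ℂ} (h : Exceptional δ d w α) : Pool.Agent.Y120.A.ExcJ δ d w α := by
  obtain ⟨z, hz, K, hK, hKd, P, hP, hP0, hPg⟩ := h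
  refine ⟨fun i => ⟨z i, (hz i).1⟩, fun i => ?_, K, hK, hKd, P, hP, ?_, ?_⟩
  · have h1 := (hz i).2
    rw [J_eq] at h1
    exact h1
  · rw [← values_eq] at hP0
    exact hP0
  · by_contra hcon
    push Not at hcon
    apply hPg
    refine MvPolynomial.funext fun u => ?_
    rw [map_zero, gen_eval]
    exact hcon u

/-- For all `q`, `k`, `m ≥ 1`, `d`, `δ` there are `c > 0` and `C` such that for all `w_1, …, w_q` and all `T ≥ 1` at most
`C T^(-c) |Z_m(T)|^k` of the `k`-tuples of elements of the finite set `Z_m(T)` are exceptional. -/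
theorem result (q k m d δ : ℕ) (hm : 1 ≤ m) : ∃ c : ℝ, 0 < c ∧ ∃ C : ℝ, 0 ≤ C ∧ ∀ (w : Fin q → ℂ) (T : ℕ), 1 ≤ T →
    (Z m T).Finite ∧ ({α : Fin k → ℂ | (∀ i, α i ∈ Z m T) ∧ Exceptional δ d w α}.ncard : ℝ) ≤
      C * (T : ℝ) ^ (-c) * ((Z m T).ncard : ℝ) ^ k := by
  obtain ⟨c, hc, C, hC, h⟩ := Pool.Agent.Y120.A.tupP Pool.Agent.Y120.A.hvcj Pool.Agent.Y120.A.hirr q k m d δ hm
  refine ⟨c, hc, C, hC, fun w T hT => ?_⟩
  obtain ⟨h1, h2⟩ := h w T hT
  refine ⟨h1, le_trans ?_ h2⟩
  have hsub : {α : Fin k → ℂ | (∀ i, α i ∈ Z m T) ∧ Exceptional δ d w α} ⊆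
      {α : Fin k → ℂ | (∀ i, Pool.Agent.Y916.Sl.SInt m T (α i)) ∧ Pool.Agent.Y120.A.ExcJ δ d w α} :=
    fun α hα => ⟨hα.1, exc hα.2⟩
  have hfin : {α : Fin k → ℂ | (∀ i, Pool.Agent.Y916.Sl.SInt m T (α i)) ∧ Pool.Agent.Y120.A.ExcJ δ d w α}.Finite := by
    refine (Set.Finite.pi' fun _ : Fin k => h1).subset fun α hα => ?_
    exact hα.1
  exact_mod_cast Set.ncard_le_ncard hsub hfin

end Pool.Agent.Results.MP_f58a57_nt.AlgebraicInvariants
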