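import Pool.Agent.Y120.K.All

/-!
# The modular Schanuel conjecture with derivatives and special points: distinct integral invariants in windows

Let `j` be the modular invariant and let `z_1, …, z_k` be points of the upper half-plane for which the numbers
`n_i = j(z_i)` are distinct integers. If the `z_i` are not special and pairwise not equivalent under `GL_2(ℚ)`, the
conjecture predicts that the `3 k` numbers `z_i`, `j'(z_i)`, `j''(z_i)` are algebraically independent, and that they stay
independent if one adds the values `j'(w_1), …, j'(w_q)` at inequivalent special points `w_l` with `j'(w_l) ≠ 0`: this is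
the bound `3 m_1 + m_2` with `m_1 = k`, `m_2 = q`.

We prove a uniform statement in short windows. For all `q`, `k`, `D`, `δ` there is a number `E` such that for all `N`, `H`
with `(H + 2)^E ≤ N`, all complex numbers `w_1, …, w_q` and each sign `ε` there is a set `S` of **at most `q + 2`** integers
such that for **all** distinct integers `n_1, …, n_k` outside `S` with `N ≤ ε n_i ≤ N + H` and **all** points `z_i` with
`j(z_i) = n_i` every relation of degree at most `δ` between the numbers `z_i`, `j'(z_i)`, `j''(z_i)`, with coefficients which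
are polynomials in `2 π i, w_1, …, w_q` over a number field of degree at most `D`, is trivial: the polynomial is
zero after the substitution of the numbers `2 π i, w_1, …, w_q`. If these `q + 1` numbers are algebraically independent, there
is no relation of degree `≤ δ` between `2 π i`, the `w_l` and the `3 k` numbers. With `w_l = j'(special point)`
this is the bound of the conjecture for relations of degree `≤ δ`. The set `S` depends on the `w_l`, but its size does
not; in particular beyond a constant all windows of length `q + 1 + k` contain such integers `n_1, …, n_k`.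

Proof. As for `MP_ede373_nt.IntegralInvariants` the numbers are rational functions of `2 π i`, of values at `X = 1/n` of
G-functions and of `log |n|`. In a window the values at `1/(t - g)`, `1 ≤ g ≤ H`, are values at `1/t` of a family of shifted
G-functions. The products over all `k`-tuples of distinct shifts, also of neighbouring ones, are linearly independent over
`ℚ(X)`: this is shown by analytic continuation of `z`, `j'(z)`, `j''(z)` around the elliptic points and around infinity, where
`j = 1 / x - g`, and by the fact that the functions of one shift are transcendental over the functions which are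
analytic on the whole interval up to the singular point `x = 1 / (g + 1728)` (or `1 / g`) of this shift. Siegel's method with
zero estimates of Shidlovskii's type is applied to all tuples of shifts at once, with a bound which is polynomial in the
size of the shifts. The relations at more than `q + 2` exceptional points would eliminate the constants
`2 π i`, `w_l`, `log |n|`.
-/

set_option autoImplicit false

namespace Pool.Agent.Results.MP_f58a57_nt.DistinctWindows

/-- the normalised Eisenstein series of weight `4` -/
noncomputable def E4 (τ : ℂ) : ℂ :=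
  1 + 240 * ∑' m : ℕ, ((ArithmeticFunction.sigma 3 (m + 1) : ℕ) : ℂ) *
    Complex.exp (2 * (Real.pi : ℂ) * Complex.I * ((m : ℂ) + 1) * τ)

/-- the normalised Eisenstein series of weight `6` -/
noncomputable def E6 (τ : ℂ) : ℂ :=
  1 - 504 * ∑' m : ℕ, ((ArithmeticFunction.sigma 5 (m + 1) : ℕ) : ℂ) *
    Complex.exp (2 * (Real.pi : ℂ) * Complex.I * ((m : ℂ) + 1) * τ)

/-- the modular invariant `j = q⁻¹ + 744 + 196884 q + ⋯` -/
noncomputable def J (τ : ℂ) : ℂ := 1728 * E4 τ ^ 3 / (E4 τ ^ 3 - E6 τ ^ 2)

/-- the numbers `z`, `j'(z)`, `j''(z)` -/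
noncomputable def numbers (z : ℂ) : Fin 3 → ℂ := ![z, deriv J z, deriv (deriv J) z]

/-- The numbers `2 π i, w_1, …, w_q` and `numbers (z_1), …, numbers (z_k)`. -/
noncomputable def values {q k : ℕ} (w : Fin q → ℂ) (z : Fin k → ℂ) : Option (Fin q) ⊕ Fin k × Fin 3 → ℂ :=
  Sum.elim (fun o => o.elim (2 * Real.pi * Complex.I) w) fun v => numbers (z v.1) v.2

/-- The numbers `2 π i, w_1, …, w_q` and `3 k` variables. -/
noncomputable def generic {q k : ℕ} (w : Fin q → ℂ) :
    Option (Fin q) ⊕ Fin k × Fin 3 → MvPolynomial (Fin k × Fin 3) ℂ :=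
  Sum.elim (fun o => MvPolynomial.C (o.elim (2 * Real.pi * Complex.I) w)) MvPolynomial.X

lemma gen_eval {q k : ℕ} (K : IntermediateField ℚ ℂ) (w : Fin q → ℂ) (u : Fin k × Fin 3 → ℂ)
    (P : MvPolynomial (Option (Fin q) ⊕ Fin k × Fin 3) K) :
    MvPolynomial.eval u (MvPolynomial.aeval (generic (k := k) w) P) =
      MvPolynomial.aeval (Sum.elim (Pool.Agent.Y120.K.wo w) u) P := by
  have h2 : ((MvPolynomial.aeval u : MvPolynomial (Fin k × Fin 3) ℂ →ₐ[ℂ] ℂ).restrictScalars K).comp
      (MvPolynomial.aeval (generic (k := k) w) : MvPolynomial (Option (Fin q) ⊕ Fin k × Fin 3) K →ₐ[K] MvPolynomial (Fin k × Fin 3) ℂ)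
      = MvPolynomial.aeval (Sum.elim (Pool.Agent.Y120.K.wo w) u) := by
    apply MvPolynomial.algHom_ext
    intro v
    rw [AlgHom.comp_apply, MvPolynomial.aeval_X, MvPolynomial.aeval_X, AlgHom.restrictScalars_apply]
    rcases v with o | v
    · rw [generic, Sum.elim_inl, Sum.elim_inl, MvPolynomial.aeval_C]
      rcases o with _ | o <;> rfl
    · rw [generic, Sum.elim_inr, Sum.elim_inr, MvPolynomial.aeval_X]
  rw [← h2, AlgHom.comp_apply, AlgHom.restrictScalars_apply]
  rfl

lemma J_eq : J = Pool.Agent.TH21.MS.jj := by
  have h4 : E4 = Pool.Agent.TH21.MS.E4 := funext Pool.Agent.Y120.J.E4_same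
  have h6 : E6 = Pool.Agent.TH21.MS.E6 := funext Pool.Agent.Y120.J.E6_same
  funext τ
  unfold J Pool.Agent.TH21.MS.jj
  rw [h4, h6]

lemma values_eq {q k : ℕ} (w : Fin q → ℂ) (z : Fin k → ℂ) :
    (Sum.elim (Pool.Agent.Y120.K.wo w) fun v : Fin k × Fin 3 => Pool.Agent.Y120.J.jt (z v.1) v.2) = values w z := by
  unfold values
  funext v
  rcases v with o | v
  · rw [Sum.elim_inl, Sum.elim_inl]
    rcases o with _ | o <;> rfl
  · rw [Sum.elim_inr, Sum.elim_inr]
    unfold numbers Pool.Agent.Y120.J.jt
    rw [J_eq]

lemma sign {ε : ℤ} (hε : ε = 1 ∨ ε = -1) : ∃ s : Bool, Pool.Agent.Y120.J.si s = ε := by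
  rcases hε with h | h
  · exact ⟨true, by rw [h]; rfl⟩
  · exact ⟨false, by rw [h]; rfl⟩

/-- For all `q`, `k`, `D`, `δ` there is `E` such that for all `N`, `H` with `(H + 2)^E ≤ N`, all `w_1, …, w_q` and `ε = ±1`
there is a set `S` of at most `q + 2` integers such that for all distinct integers `n_1, …, n_k` outside `S` with
`N ≤ ε n_i ≤ N + H` and all `z_i` with `j(z_i) = n_i` every polynomial `P` of degree at most `δ` over a number field `K` of
degree at most `D` which vanishes at `2 π i, w_1, …, w_q` and the `3 k` numbers of the `z_i` is zero after the substitution of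
`2 π i, w_1, …, w_q`. -/
theorem result (q k D δ : ℕ) : ∃ E : ℕ, ∀ N H : ℕ, (H + 2) ^ E ≤ N →
    ∀ (w : Fin q → ℂ) (ε : ℤ), ε = 1 ∨ ε = -1 →
    ∃ S : Finset ℤ, S.card ≤ q + 2 ∧ ∀ n : Fin k → ℤ, Function.Injective n →
      (∀ i, (N : ℤ) ≤ ε * n i ∧ ε * n i ≤ N + H ∧ n i ∉ S) →
      ∀ z : Fin k → ℂ, (∀ i, 0 < (z i).im ∧ J (z i) = n i) →
      ∀ K : IntermediateField ℚ ℂ, FiniteDimensional ℚ K → Module.finrank ℚ K ≤ D →
      ∀ P : MvPolynomial (Option (Fin q) ⊕ Fin k × Fin 3) K, P.totalDegree ≤ δ →
        MvPolynomial.aeval (values w z) P = 0 → MvPolynomial.aeval (generic (k := k) w) P = 0 := by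
  obtain ⟨E, hE⟩ := Pool.Agent.Y120.K.winZ2 Pool.Agent.Y120.K.hnr q k D δ
  refine ⟨E, fun N H hN w ε hε => ?_⟩
  obtain ⟨s, hs⟩ := sign hε
  obtain ⟨S, hSc, hS⟩ := hE N H hN w s
  refine ⟨S, hSc, fun n hn1 hnS z hz K hK hKD P hP hP0 => ?_⟩
  rw [hs] at hS
  rw [← values_eq] at hP0
  have h1 := hS n hn1 hnS (fun i => ⟨z i, (hz i).1⟩) (fun i => by
    have h1 := (hz i).2
    rw [J_eq] at h1
    exact h1) K hK hKD P hP hP0
  apply MvPolynomial.funext
  intro u
  rw [map_zero, gen_eval]
  exact h1 u

end Pool.Agent.Results.MP_f58a57_nt.DistinctWindows
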