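import Pool.Agent.Y771.KF.MSP

/-!
# Values of `e^(-2πi z)`, `j`, `j'`, `j''` at points of a number field

Let `k` be a number field with an embedding `σ : k → ℂ`, let `s_1, …, s_p` be positive real numbers, linearly independent
over `ℚ` (for example `p = 1`, `s_1 = 1`), and let `K` be a compact subset of the upper half-plane. For an `n`-tuple
`z = (z_1, …, z_n)` of elements of `k` with `σ z_l ∈ K` we consider the points `s_i z_l` of the upper half-plane. For
`p = 1`, `s_1 = 1` the points are algebraic, and the modular Schanuel conjecture with derivatives and special points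
(a consequence of the period conjecture) predicts that the numbers `j (z_l)`, `j' (z_l)`, `j'' (z_l)` are algebraically
independent if the `z_l` are not special and lie in distinct `GL_2 (ℚ)`-orbits; Bertolin's conjecture adds the numbers
`π` and `e^(2πi z_l)`. The tuples with `z_1 = z_2`, or `z_2 = z_1 + 1`, are exceptional.

We prove that up to any degree and any polynomial height, exceptional tuples are rare: those of height at most `T` which
satisfy a relation of degree at most `d` with coefficients in `k` of height at most `T ^ A` (even an approximate one, up to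
`T ^ (-B)`) lie on at most `C T ^ ε` hypersurfaces of degree at most `D`. For `n = 1` there are at most `C T ^ ε` exceptional
points, special points included, although there are about `T ^ 2` points of height at most `T`. The height is the
multiplicative height of `k` (`Height.mulHeight₁`).

Proof: the general theorem of helper124 (`Pool.Agent.Y124.core`, a nonstandard version of the Bombieri-Pila method), used
here over number fields (`Pool.Agent.Y771.KF.stdK`), and the algebraic independence of `z`, `e^(2πi z)`, `j (z)`, `j' (z)`,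
`j'' (z)` and their transforms `z ↦ s_i z` (`Pool.Agent.TH21.MS`).
-/

set_option autoImplicit false

namespace Pool.Agent.Results.MP_f58a57_nt.NumberFieldPoints

/-- the normalised Eisenstein series of weight `4` -/
noncomputable def E4 (τ : ℂ) : ℂ :=
  1 + 240 * ∑' m : ℕ, ((ArithmeticFunction.sigma 3 (m + 1) : ℕ) : ℂ) *
    Complex.exp (2 * (Real.pi : ℂ) * Complex.I * τ) ^ (m + 1)

/-- the normalised Eisenstein series of weight `6` -/
noncomputable def E6 (τ : ℂ) : ℂ :=
  1 - 504 * ∑' m : ℕ, ((ArithmeticFunction.sigma 5 (m + 1) : ℕ) : ℂ) *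
    Complex.exp (2 * (Real.pi : ℂ) * Complex.I * τ) ^ (m + 1)

/-- the modular invariant `j = q⁻¹ + 744 + 196884 q + ⋯` -/
noncomputable def j (τ : ℂ) : ℂ := 1728 * E4 τ ^ 3 / (E4 τ ^ 3 - E6 τ ^ 2)

/-- `exp (-2πi z), j (z), j' (z), j'' (z)` (complex derivatives) -/
noncomputable def jet (z : ℂ) : Fin 4 → ℂ :=
  ![Complex.exp (-(2 * (Real.pi : ℂ) * Complex.I * z)), j z, deriv j z, deriv (deriv j) z]

/-- the `4 p n + 1` numbers: `π`, and `exp (-2πi z), j (z), j' (z), j'' (z)` at the points `z = s_i z_l` -/
noncomputable def numbers {k : Type} [Field k] (σ : k →+* ℂ) {p n : ℕ} (s : Fin p → ℝ) (z : Fin n → k)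
    (i : Option (Fin n × (Fin p × Fin 4))) : ℂ :=
  i.elim (Real.pi : ℂ) fun q => jet ((s q.2.1 : ℂ) * σ (z q.1)) q.2.2

/-- The `n`-tuples `z` of elements of `k`, of height at most `T` and with `σ z_l ∈ K`, for which some nonzero
polynomial in `4 p n + 1` variables with coefficients in `k` of height at most `T ^ A`, of degree at most `d` in each
variable, takes at the `4 p n + 1` numbers a value of absolute value at most `T ^ (-B)`. -/
def Exceptional {k : Type} [Field k] [NumberField k] (σ : k →+* ℂ) {p : ℕ} (n d : ℕ) (s : Fin p → ℝ) (K : Set ℂ)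
    (A B T : ℝ) : Set (Fin n → k) :=
  {z | (∀ l, σ (z l) ∈ K ∧ Height.mulHeight₁ (z l) ≤ T) ∧
    ∃ P : MvPolynomial (Option (Fin n × (Fin p × Fin 4))) k, P ≠ 0 ∧ (∀ i, P.degreeOf i ≤ d) ∧
      (∀ e, Height.mulHeight₁ (P.coeff e) ≤ T ^ A) ∧ ‖MvPolynomial.eval₂ σ (numbers σ s z) P‖ ≤ T ^ (-B)}

/-- For every `ε > 0` there are `D`, `B` and `C` such that for all `T ≥ 1` the exceptional `n`-tuples are zeros of at most
`C T ^ ε` nonzero polynomials of degree at most `D`, and their number is at most `C T ^ ε N (T) ^ (n - 1)`, where `N (T)`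
is the number of elements of `k` of height at most `T`. -/
theorem result (k : Type) [Field k] [NumberField k] (σ : k →+* ℂ) (p n d : ℕ) (hn : 1 ≤ n) (s : Fin p → ℝ)
    (hs0 : ∀ i, 0 < s i) (hs : ∀ c : Fin p → ℤ, ∑ i, (c i : ℝ) * s i = 0 → c = 0) (K : Set ℂ) (hK : IsCompact K)
    (hKH : ∀ z ∈ K, 0 < z.im) (A ε : ℝ) (hε : 0 < ε) :
    ∃ (D : ℕ) (B C : ℝ), ∀ T : ℝ, 1 ≤ T →
      (∃ Φ : Finset (MvPolynomial (Fin n) k), (Φ.card : ℝ) ≤ C * T ^ ε ∧ (∀ Q ∈ Φ, Q ≠ 0 ∧ Q.totalDegree ≤ D) ∧
        ∀ z ∈ Exceptional σ n d s K A B T, ∃ Q ∈ Φ, MvPolynomial.eval z Q = 0) ∧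
      (Exceptional σ n d s K A B T).Finite ∧
      ((Exceptional σ n d s K A B T).ncard : ℝ) ≤
        C * T ^ ε * ({x : k | Height.mulHeight₁ x ≤ T}.ncard : ℝ) ^ (n - 1) :=
  Pool.Agent.Y771.KF.pointsmain σ s hs0 hs n d hn K hK hKH A ε hε

end Pool.Agent.Results.MP_f58a57_nt.NumberFieldPoints
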